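import Mathlib

set_option autoImplicit false

/-! The plane is `ℂ`, with `x₁ = re` and `x₂ = im`; rotations are multiplications by unit complex
numbers. -/

namespace Pool.Agent.H257Z.FB

open Complex Set Metric

/-- A Lipschitz domain: an open connected set that near each boundary point is, in rotated
coordinates centred at the point, the region above the graph of a Lipschitz function. -/
def IsLipschitzDomain (D : Set ℂ) : Prop :=
  IsOpen D ∧ IsConnected D ∧ ∀ z₀ ∈ frontier D, ∃ ρ : ℝ, 0 < ρ ∧ ∃ ω : ℂ, ‖ω‖ = 1 ∧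
    ∃ (γ : ℝ → ℝ) (K : NNReal), LipschitzWith K γ ∧
      ∀ s t : ℝ, z₀ + ω * (s + t * I) ∈ ball z₀ ρ → (z₀ + ω * (s + t * I) ∈ D ↔ γ s < t)

/-- Near `0` the boundary of `D` is, in rotated coordinates, the graph of a function `γ` on an open
set `J` of reals, where `γ` has the property `P` on `J`. -/
def BoundaryGraphNearZero (D : Set ℂ) (P : Set ℝ → (ℝ → ℝ) → Prop) : Prop :=
  ∃ ρ : ℝ, 0 < ρ ∧ ∃ ω : ℂ, ‖ω‖ = 1 ∧ ∃ (J : Set ℝ) (γ : ℝ → ℝ), IsOpen J ∧ P J γ ∧
    frontier D ∩ ball 0 ρ = ((fun s : ℝ => ω * (s + γ s * I)) '' J) ∩ ball 0 ρ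

end Pool.Agent.H257Z.FB
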