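import Pool.Agent.H257Z.FB.Sol
import Pool.Agent.H257Z.FB.Defs

set_option autoImplicit false

/-! The domain and its boundary. -/

namespace Pool.Agent.H257Z.FB

open Complex Set Filter Topology Metric

/-- The left boundary of the domain. -/
noncomputable def H (y : ℝ) : ℝ := h y + max (|y| - 2) 0

theorem H_lip (a b : ℝ) : |H a - H b| ≤ 3 * |a - b| := by
  have h1 := h_lip a b
  have h2 := abs_max_sub_max_le_max (|a| - 2) 0 (|b| - 2) 0
  rw [sub_self, abs_zero, sub_sub_sub_cancel_right,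
    max_eq_left (abs_nonneg (|a| - |b|))] at h2
  have h3 := abs_abs_sub_abs_le_abs_sub a b
  have e : H a - H b = (h a - h b) + (max (|a| - 2) 0 - max (|b| - 2) 0) := by
    rw [H, H]; ring
  rw [e]
  linarith [abs_add_le (h a - h b) (max (|a| - 2) 0 - max (|b| - 2) 0)]

theorem lipschitz_H : LipschitzWith 3 H := LipschitzWith.of_dist_le_mul fun a b => by
  simpa [Real.dist_eq] using H_lip a b

theorem continuous_H : Continuous H := lipschitz_H.continuous

theorem H_eq {y : ℝ} (hy : |y| ≤ 2) : H y = h y := by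
  rw [H, max_eq_right (by linarith), add_zero]

theorem H_pos {y : ℝ} (hy : 2 ≤ y) : H y = h 2 + (y - 2) := by
  have e : cl y = cl 2 := by rw [cl, cl, min_eq_left hy, min_self]
  rw [H, abs_of_nonneg (by linarith), max_eq_left (by linarith), h, h, T, T, e]

theorem H_neg {y : ℝ} (hy : y ≤ -2) : H y = h (-2) + (-y - 2) := by
  have e : cl y = cl (-2) := by
    rw [cl, cl, min_eq_right (by linarith), min_eq_right (by linarith), max_eq_left hy, max_self]
  rw [H, abs_of_nonpos (by linarith), max_eq_left (by linarith), h, h, T, T, e]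

/-- The domain. -/
def Dom : Set ℂ := {z | H z.im < z.re ∧ z.re < 20 - H z.im}

theorem isOpen_Dom : IsOpen Dom :=
  (isOpen_lt (continuous_H.comp continuous_im) continuous_re).inter
    (isOpen_lt continuous_re (continuous_const.sub (continuous_H.comp continuous_im)))

theorem isConnected_Dom : IsConnected Dom := by
  refine ⟨⟨1, ?_⟩, ?_⟩
  · simp only [Dom, mem_ofPred_eq, one_im, one_re]
    rw [H_eq (by norm_num), h_zero]
    norm_num
  · have hY : IsPreconnected {y : ℝ | H y < 10} := by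
      rw [isPreconnected_iff_ordConnected]
      refine ⟨fun a ha b hb y hy => ?_⟩
      simp only [mem_ofPred_eq] at *
      by_cases h1 : 2 ≤ y
      · rw [H_pos (h1.trans hy.2)] at hb
        rw [H_pos h1]; linarith [hy.2]
      · by_cases h2 : y ≤ -2
        · rw [H_neg (hy.1.trans h2)] at ha
          rw [H_neg h2]; linarith [hy.1]
        · rw [H_eq (abs_le.2 ⟨by linarith, by linarith⟩)]
          linarith [h_lt y]
    have := region_preconnected continuous_H (B := fun y => 20 - H y)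
      (continuous_const.sub continuous_H) hY (fun y hy => by
        simp only [mem_ofPred_eq] at hy; linarith)
    convert this using 1
    ext z
    simp only [Dom, mem_ofPred_eq]
    exact ⟨fun hz => ⟨by linarith [hz.1, hz.2], hz⟩, fun hz => hz.2⟩

theorem isBounded_Dom : Bornology.IsBounded Dom := by
  refine (isBounded_iff_forall_norm_le).2 ⟨40, fun z hz => ?_⟩
  have h1 := h_nonneg z.im
  have h2 := le_max_left (|z.im| - 2) 0
  have h3 := le_max_right (|z.im| - 2) 0
  obtain ⟨h4, h5⟩ := hz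
  rw [H] at h4 h5
  have h6 : |z.re| ≤ 20 := abs_le.2 ⟨by linarith, by linarith⟩
  linarith [norm_le_abs_re_add_abs_im z]

theorem frontier_sub {z : ℂ} (hz : z ∈ frontier Dom) :
    H z.im ≤ z.re ∧ z.re ≤ 20 - H z.im ∧ (H z.im = z.re ∨ z.re = 20 - H z.im) := by
  rw [isOpen_Dom.frontier_eq] at hz
  have hc : IsClosed {z : ℂ | H z.im ≤ z.re ∧ z.re ≤ 20 - H z.im} :=
    (isClosed_le (continuous_H.comp continuous_im) continuous_re).inter
      (isClosed_le continuous_re (continuous_const.sub (continuous_H.comp continuous_im)))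
  have h1 := closure_minimal (fun x (hx : x ∈ Dom) => (⟨hx.1.le, hx.2.le⟩ :
    x ∈ {z : ℂ | H z.im ≤ z.re ∧ z.re ≤ 20 - H z.im})) hc hz.1
  refine ⟨h1.1, h1.2, ?_⟩
  by_contra hcon
  push Not at hcon
  exact hz.2 ⟨lt_of_le_of_ne h1.1 hcon.1, lt_of_le_of_ne h1.2 hcon.2⟩

theorem lipschitz_Dom : IsLipschitzDomain Dom := by
  refine ⟨isOpen_Dom, isConnected_Dom, fun z hz => ?_⟩
  obtain ⟨h1, h2, h3⟩ := frontier_sub hz
  rcases lt_or_eq_of_le (show H z.im ≤ 10 by linarith) with h4 | h4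
  · rcases h3 with h3 | h3
    · obtain ⟨ρ, hρ, hb⟩ := Metric.isOpen_iff.1
        (isOpen_lt continuous_re (continuous_const.sub (continuous_H.comp continuous_im))) z
        (show z.re < 20 - H z.im by linarith)
      refine ⟨ρ, hρ, -I, by simp, fun s => H (z.im - s) - z.re, 3,
        LipschitzWith.of_dist_le_mul fun a b => ?_, fun s t hst => ?_⟩
      · have := H_lip (z.im - a) (z.im - b)
        rw [sub_sub_sub_cancel_left, abs_sub_comm b a] at this
        simpa [Real.dist_eq] using this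
      · have h5 : (z + -I * (s + t * I)).re < 20 - H (z + -I * (s + t * I)).im := hb hst
        have e1 : (z + -I * (s + t * I)).re = z.re + t := by simp
        have e2 : (z + -I * (s + t * I)).im = z.im - s := by simp [sub_eq_add_neg]
        simp only [Dom, mem_ofPred_eq]
        rw [e1, e2] at h5 ⊢
        exact ⟨fun h => by linarith [h.1], fun h => ⟨by linarith, h5⟩⟩
    · obtain ⟨ρ, hρ, hb⟩ := Metric.isOpen_iff.1
        (isOpen_lt (continuous_H.comp continuous_im) continuous_re) z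
        (show H z.im < z.re by linarith)
      refine ⟨ρ, hρ, I, by simp, fun s => H (z.im + s) - (20 - z.re), 3,
        LipschitzWith.of_dist_le_mul fun a b => ?_, fun s t hst => ?_⟩
      · have := H_lip (z.im + a) (z.im + b)
        rw [add_sub_add_left_eq_sub] at this
        simpa [Real.dist_eq] using this
      · have h5 : H (z + I * (s + t * I)).im < (z + I * (s + t * I)).re := hb hst
        have e1 : (z + I * (s + t * I)).re = z.re - t := by simp [sub_eq_add_neg]
        have e2 : (z + I * (s + t * I)).im = z.im + s := by simp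
        simp only [Dom, mem_ofPred_eq]
        rw [e1, e2] at h5 ⊢
        exact ⟨fun h => by linarith [h.2], fun h => ⟨h5, by linarith⟩⟩
  · have hre : z.re = 10 := by linarith
    have habs : LipschitzWith 1 fun s : ℝ => |s| := LipschitzWith.of_dist_le_mul fun a b => by
      simpa [Real.dist_eq] using abs_abs_sub_abs_le_abs_sub a b
    by_cases h5 : 2 ≤ z.im
    · rw [H_pos h5] at h4
      refine ⟨1, one_pos, -1, by simp, fun s => |s|, 1, habs, fun s t hst => ?_⟩
      have e1 : (z + -1 * (s + t * I)).re = z.re - s := by simp [sub_eq_add_neg]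
      have e2 : (z + -1 * (s + t * I)).im = z.im - t := by simp [sub_eq_add_neg]
      rw [mem_ball_iff_norm] at hst
      have h6 := abs_lt.1 ((abs_im_le_norm _).trans_lt hst)
      rw [sub_im, e2] at h6
      simp only [Dom, mem_ofPred_eq]
      rw [e1, e2, H_pos (by linarith [h_lt 2, h6.1]), abs_lt]
      exact ⟨fun h => ⟨by linarith [h.2], by linarith [h.1]⟩,
        fun h => ⟨by linarith [h.2], by linarith [h.1]⟩⟩
    · by_cases h5' : z.im ≤ -2
      · rw [H_neg h5'] at h4
        refine ⟨1, one_pos, 1, by simp, fun s => |s|, 1, habs, fun s t hst => ?_⟩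
        have e1 : (z + 1 * (s + t * I)).re = z.re + s := by simp
        have e2 : (z + 1 * (s + t * I)).im = z.im + t := by simp
        rw [mem_ball_iff_norm] at hst
        have h6 := abs_lt.1 ((abs_im_le_norm _).trans_lt hst)
        rw [sub_im, e2] at h6
        simp only [Dom, mem_ofPred_eq]
        rw [e1, e2, H_neg (by linarith [h_lt (-2), h6.2]), abs_lt]
        exact ⟨fun h => ⟨by linarith [h.1], by linarith [h.2]⟩,
          fun h => ⟨by linarith [h.1], by linarith [h.2]⟩⟩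
      · rw [H_eq (abs_le.2 ⟨by linarith, by linarith⟩)] at h4
        linarith [h_lt z.im]

theorem ball_bounds {z : ℂ} (hz : z ∈ ball (0 : ℂ) 2) : |z.im| < 2 ∧ |z.re| < 2 := by
  rw [mem_ball_zero_iff] at hz
  exact ⟨(abs_im_le_norm z).trans_lt hz, (abs_re_le_norm z).trans_lt hz⟩

theorem mem_Dom {z : ℂ} (hz : z ∈ ball (0 : ℂ) 2) : z ∈ Dom ↔ h z.im < z.re := by
  obtain ⟨h1, h2⟩ := ball_bounds hz
  simp only [Dom, mem_ofPred_eq]
  rw [H_eq h1.le]
  exact ⟨fun h => h.1, fun h => ⟨h, by linarith [h_lt z.im, (abs_lt.1 h2).2]⟩⟩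

theorem mem_frontier {z : ℂ} (hz : z ∈ ball (0 : ℂ) 2) : z ∈ frontier Dom ↔ h z.im = z.re := by
  obtain ⟨h1, h2⟩ := ball_bounds hz
  constructor
  · intro h3
    obtain ⟨-, -, h4⟩ := frontier_sub h3
    rw [H_eq h1.le] at h4
    rcases h4 with h4 | h4
    · exact h4
    · linarith [h_lt z.im, (abs_lt.1 h2).2]
  · intro h3
    rw [isOpen_Dom.frontier_eq]
    refine ⟨?_, fun h4 => ((mem_Dom hz).1 h4).ne h3⟩
    have t : Tendsto (fun e : ℝ => z + e) (𝓝[>] 0) (𝓝 z) := by
      have : Tendsto (fun e : ℝ => z + e) (𝓝 0) (𝓝 (z + (0 : ℝ))) :=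
        (continuous_const.add continuous_ofReal).continuousAt
      simpa using this.mono_left nhdsWithin_le_nhds
    refine mem_closure_of_tendsto t ?_
    filter_upwards [t.eventually (isOpen_ball.mem_nhds hz), self_mem_nhdsWithin] with e he he0
    rw [mem_Dom he]
    simp only [add_im, ofReal_im, add_zero, add_re, ofReal_re]
    rw [h3]
    exact lt_add_of_pos_right _ he0

theorem ball_sub_Q : ball (0 : ℂ) 2 ⊆ Q := fun z hz =>
  ⟨abs_lt.1 (ball_bounds hz).1, by linarith [(abs_lt.1 (ball_bounds hz).2).2]⟩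

/-- The derivative of `h`, as a function of the parameter. -/
noncomputable def m (t : ℝ) : ℝ := Real.pi / 2 * ((SignType.sign t : ℝ) * (6 - Real.log t)⁻¹)

theorem log_le {t : ℝ} (ht : |t| ≤ 2) : 1 ≤ 6 - Real.log t := by
  by_cases h0 : t = 0
  · rw [h0, Real.log_zero]; norm_num
  · have := Real.log_le_sub_one_of_pos (abs_pos.2 h0)
    rw [Real.log_abs] at this
    linarith

theorem small_log {e : ℝ} {t : ℝ} (h0 : t ≠ 0) (ht : |t| < Real.exp (-e⁻¹)) :
    e⁻¹ < -Real.log t := by
  have := Real.log_lt_log (abs_pos.2 h0) ht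
  rw [Real.log_exp, Real.log_abs] at this
  linarith

theorem continuousAt_m {t : ℝ} (ht : |t| ≤ 2) : ContinuousAt m t := by
  refine continuousAt_const.mul ?_
  by_cases h0 : t = 0
  · subst h0
    rw [Metric.continuousAt_iff]
    intro e he
    refine ⟨Real.exp (-e⁻¹), Real.exp_pos _, fun x hx => ?_⟩
    rw [sign_zero, SignType.coe_zero, zero_mul, Real.dist_eq, sub_zero]
    by_cases hx0 : x = 0
    · simpa [hx0] using he
    · rw [Real.dist_eq, sub_zero] at hx
      have h1 := small_log hx0 hx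
      have h2 : 0 < e⁻¹ := inv_pos.2 he
      have h3 : |(SignType.sign x : ℝ)| = 1 := by
        rcases lt_or_gt_of_ne hx0 with h | h <;> simp [h]
      rw [abs_mul, h3, one_mul, abs_inv, abs_of_pos (by linarith)]
      exact inv_lt_of_inv_lt₀ he (by linarith)
  · refine ContinuousAt.mul ?_ ((continuousAt_const.sub (Real.continuousAt_log h0)).inv₀ ?_)
    · exact (continuous_of_discreteTopology (f := fun s : SignType => (s : ℝ))).continuousAt.comp
        (continuousAt_sign_of_ne_zero h0)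
    · have := log_le ht
      show 6 - Real.log t ≠ 0
      linarith

theorem continuous_T : Continuous T :=
  (LipschitzWith.of_dist_le_mul (K := 1) fun a b => by
    simpa [Real.dist_eq] using T_lip a b).continuous

theorem hasDerivAt_h {y : ℝ} (hy : y ∈ Ioo (-2 : ℝ) 2) : HasDerivAt h (m (T y)) y := by
  have hk : k (T y) = y := by rw [k_T, cl_eq (Ioo_subset_Icc_self hy)]
  by_cases h0 : T y = 0
  · have hy0 : y = 0 := by rw [← hk, h0, k_zero]
    subst hy0
    have e : m (T 0) = 0 := by simp [m, T_zero]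
    rw [e, hasDerivAt_iff_isLittleO, Asymptotics.isLittleO_iff]
    intro c hc
    have h1 : ∀ᶠ x in 𝓝 (0 : ℝ), |x| < Real.exp (-(c / 2)⁻¹) :=
      continuous_abs.continuousAt.eventually_lt continuousAt_const (by simpa using Real.exp_pos _)
    filter_upwards [h1, Ioo_mem_nhds hy.1 hy.2] with x hx hx2
    rw [h_zero, sub_zero, sub_zero, smul_zero, sub_zero, Real.norm_of_nonneg (h_nonneg x),
      Real.norm_eq_abs, h]
    by_cases hx0 : T x = 0
    · rw [hx0, abs_zero, mul_zero]; positivity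
    · have h2 := T_lip x 0
      rw [T_zero, sub_zero, sub_zero] at h2
      have h3 := small_log hx0 (h2.trans_lt hx)
      have h4 : k (T x) = x := by rw [k_T, cl_eq (Ioo_subset_Icc_self hx2)]
      have h5 : 0 < (c / 2)⁻¹ := inv_pos.2 (half_pos hc)
      have h6 : |x| = |T x| * (7 - Real.log (T x)) := by
        conv_lhs => rw [← h4, k]
        rw [show 7 * T x - T x * Real.log (T x) = T x * (7 - Real.log (T x)) by ring, abs_mul,
          abs_of_pos (show 0 < 7 - Real.log (T x) by linarith)]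
      have h7 : c * (c / 2)⁻¹ = 2 := by field_simp
      have h8 : 2 ≤ c * (7 - Real.log (T x)) := by nlinarith
      rw [h6]
      nlinarith [Real.pi_lt_four, abs_nonneg (T x)]
  · have hl := log_le (abs_T_le y)
    have h1 : HasStrictDerivAt k (6 - Real.log (T y)) (T y) := by
      have := ((hasStrictDerivAt_id (T y)).const_mul 7).sub
        ((hasStrictDerivAt_id (T y)).mul (Real.hasStrictDerivAt_log h0))
      exact this.congr_deriv (by simp [h0]; ring)
    have h2 : ∀ᶠ x in 𝓝 (T y), T (k x) = x := by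
      have h3 : ∀ᶠ x in 𝓝 (T y), k x ∈ Ioo (-2 : ℝ) 2 :=
        continuous_k.continuousAt.eventually (by rw [hk]; exact Ioo_mem_nhds hy.1 hy.2)
      have h4 := abs_le.1 (abs_T_le y)
      filter_upwards [h3, Icc_mem_nhds (show (-5 : ℝ) < T y by linarith [h4.1])
        (show T y < 5 by linarith [h4.2])] with x hx hx'
      exact T_k hx' (Ioo_subset_Icc_self hx)
    have h3 := (h1.to_local_left_inverse (by linarith) h2).hasDerivAt
    rw [hk] at h3
    exact ((hasDerivAt_abs h0).comp y h3).const_mul (Real.pi / 2)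

theorem contDiffOn_h : ContDiffOn ℝ 1 h (Ioo (-2 : ℝ) 2) := by
  rw [show (1 : WithTop ℕ∞) = 0 + 1 from rfl, contDiffOn_succ_iff_deriv_of_isOpen isOpen_Ioo]
  refine ⟨fun y hy => (hasDerivAt_h hy).differentiableAt.differentiableWithinAt, by simp, ?_⟩
  rw [contDiffOn_zero]
  refine ContinuousOn.congr (f := fun y => m (T y)) (fun y _ => ?_)
    fun y hy => (hasDerivAt_h hy).deriv
  exact ((continuousAt_m (abs_T_le y)).comp continuous_T.continuousAt).continuousWithinAt

theorem boundary_C1 : BoundaryGraphNearZero Dom fun J γ => ContDiffOn ℝ 1 γ J := by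
  refine ⟨2, two_pos, -I, by simp, Ioo (-2) 2, fun s => h (-s), isOpen_Ioo, ?_, ?_⟩
  · exact contDiffOn_h.comp contDiff_neg.contDiffOn fun s hs =>
      ⟨by linarith [hs.2], by linarith [hs.1]⟩
  · ext z
    constructor
    · rintro ⟨h1, h2⟩
      have h3 := abs_lt.1 (ball_bounds h2).1
      refine ⟨⟨-z.im, ⟨by linarith [h3.2], by linarith [h3.1]⟩, ?_⟩, h2⟩
      rw [mem_frontier h2] at h1
      apply Complex.ext <;> simp [h1]
    · rintro ⟨⟨s, -, rfl⟩, h2⟩
      refine ⟨(mem_frontier h2).2 ?_, h2⟩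
      simp

theorem not_flat {ρ : ℝ} (hρ : 0 < ρ) {ω : ℂ} (hω : ‖ω‖ = 1) {J : Set ℝ} {γ : ℝ → ℝ}
    (hJ : frontier Dom ∩ ball 0 ρ ⊆ (fun s : ℝ => ω * (s + γ s * I)) '' J) {α C L e : ℝ}
    (hα : 0 < α) (hC : 0 ≤ C) (he : 0 < e)
    (hγ : ∀ s : ℝ, |s| < e → |γ s - L * s| ≤ C * |s| ^ (1 + α)) : False := by
  let ν : ℂ → ℝ := fun z => ((starRingEnd ℂ) ω * z).im - L * ((starRingEnd ℂ) ω * z).re
  have hωω : (starRingEnd ℂ) ω * ω = 1 := by
    rw [mul_comm, mul_conj, normSq_eq_norm_sq, hω]; simp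
  have hν : ∀ z ∈ frontier Dom ∩ ball 0 ρ, ‖z‖ < e → |ν z| ≤ C * ‖z‖ ^ (1 + α) := by
    intro z hz hze
    obtain ⟨s, -, rfl⟩ := hJ hz
    have h1 : |s| ≤ ‖ω * (s + γ s * I)‖ := by
      rw [norm_mul, hω, one_mul]
      simpa using abs_re_le_norm (s + γ s * I)
    have h2 : ν (ω * (s + γ s * I)) = γ s - L * s := by
      simp only [ν]
      rw [← mul_assoc, hωω]
      simp
    simp only [] at hze ⊢
    rw [h2]
    exact (hγ s (h1.trans_lt hze)).trans (mul_le_mul_of_nonneg_left
      (Real.rpow_le_rpow (abs_nonneg _) h1 (by linarith)) hC)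
  have hlin : ∀ a b : ℝ, ν (a + b * I) = a * ν 1 + b * ν I := by
    intro a b
    simp only [ν, mul_re, mul_im, add_re, add_im, ofReal_re, ofReal_im, I_re, I_im, one_re, one_im]
    ring
  let β : ℝ := α / (1 + α)
  have hβ : 0 < β := by positivity
  have t1 : Tendsto (fun t : ℝ => t * (9 - Real.log t)) (𝓝[>] 0) (𝓝 0) := by
    have : Tendsto (fun t : ℝ => 9 * t - t * Real.log t) (𝓝 0)
        (𝓝 (9 * 0 - 0 * Real.log 0)) :=
      ((continuous_const.mul continuous_id).sub Real.continuous_mul_log).continuousAt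
    simp only [mul_zero, zero_mul, sub_zero] at this
    exact (this.mono_left nhdsWithin_le_nhds).congr fun t => by ring
  have t2 : Tendsto (fun t : ℝ => C * (t ^ β * (9 - Real.log t)) ^ (1 + α)) (𝓝[>] 0) (𝓝 0) := by
    have a1 : Tendsto (fun t : ℝ => t ^ β) (𝓝[>] 0) (𝓝 0) := by
      have := (Real.continuousAt_rpow_const 0 β (Or.inr hβ.le)).tendsto
      rw [Real.zero_rpow hβ.ne'] at this
      exact this.mono_left nhdsWithin_le_nhds
    have a2 := (a1.const_mul 9).sub (tendsto_log_mul_rpow_nhdsGT_zero hβ)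
    simp only [mul_zero, sub_zero] at a2
    have a3 : Tendsto (fun t : ℝ => t ^ β * (9 - Real.log t)) (𝓝[>] 0) (𝓝 0) :=
      a2.congr fun t => by ring
    have a4 := (Real.continuousAt_rpow_const 0 (1 + α) (Or.inr (by linarith))).tendsto
    rw [Real.zero_rpow (by linarith)] at a4
    simpa using (a4.comp a3).const_mul C
  have key : ∀ᶠ t in 𝓝[>] (0 : ℝ), |ν 1| ≤ C * (t ^ β * (9 - Real.log t)) ^ (1 + α) ∧
      |ν I| ≤ C * (t ^ β * (9 - Real.log t)) ^ (1 + α) := by
    filter_upwards [t1.eventually (gt_mem_nhds (lt_min hρ (lt_min he two_pos))),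
      Ioo_mem_nhdsGT (zero_lt_one' ℝ)] with t ht ht1
    have hlog : Real.log t < 0 := Real.log_neg ht1.1 ht1.2
    have ht0 := ht1.1
    have hk : k t = t * (7 - Real.log t) := by rw [k]; ring
    have hkn : k (-t) = -k t := by rw [k, k, Real.log_neg_eq_log]; ring
    have hkt : t ≤ k t := by rw [hk]; nlinarith
    have hpi := Real.pi_lt_four
    have hpi' := Real.pi_gt_three
    set N := t * (9 - Real.log t) with hN
    have main : ∀ τ : ℝ, |τ| = t → |k τ| = k t →
        |ν (((Real.pi / 2 * t : ℝ) : ℂ) + (k τ : ℝ) * I)| ≤ C * N ^ (1 + α) := by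
      intro τ h1 h2
      set z := ((Real.pi / 2 * t : ℝ) : ℂ) + (k τ : ℝ) * I with hz
      have e1 : z.re = Real.pi / 2 * t := by simp [hz]
      have e2 : z.im = k τ := by simp [hz]
      have h3 : ‖z‖ ≤ N := by
        refine (norm_le_abs_re_add_abs_im z).trans ?_
        rw [e1, e2, h2, abs_of_pos (by positivity), hk, hN]
        nlinarith
      have h4 := h3.trans_lt ht
      simp only [lt_min_iff] at h4
      have h5 : z ∈ frontier Dom := by
        rw [mem_frontier (mem_ball_zero_iff.2 h4.2.2), e1, e2, h, T_k, h1]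
        · rw [mem_Icc, ← abs_le, h1]; linarith [ht1.2]
        · rw [mem_Icc, ← abs_le, ← e2]
          exact (abs_im_le_norm z).trans h4.2.2.le
      exact (hν z ⟨h5, mem_ball_zero_iff.2 h4.1⟩ h4.2.1).trans (mul_le_mul_of_nonneg_left
        (Real.rpow_le_rpow (norm_nonneg _) h3 (by linarith)) hC)
    have m1 := main t (abs_of_pos ht0) (abs_of_pos (by linarith))
    have m2 := main (-t) (by rw [abs_neg, abs_of_pos ht0])
      (by rw [hkn, abs_neg, abs_of_pos (by linarith)])
    rw [hlin] at m1 m2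
    rw [hkn] at m2
    have e3 : N ^ (1 + α) = t * (t ^ β * (9 - Real.log t)) ^ (1 + α) := by
      rw [hN, Real.mul_rpow ht0.le (by linarith), Real.mul_rpow (by positivity) (by linarith),
        ← Real.rpow_mul ht0.le, div_mul_cancel₀ _ (by linarith), Real.rpow_add ht0,
        Real.rpow_one, mul_assoc]
    rw [e3] at m1 m2
    set q := (t ^ β * (9 - Real.log t)) ^ (1 + α)
    rw [abs_le] at m1 m2
    constructor
    · have h1 : |Real.pi / 2 * t * ν 1| ≤ C * (t * q) :=
        abs_le.2 ⟨by linarith [m1.1, m2.1], by linarith [m1.2, m2.2]⟩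
      rw [abs_mul, abs_of_pos (by positivity)] at h1
      have h2 : t * |ν 1| ≤ t * (C * q) := by nlinarith [abs_nonneg (ν 1), mul_nonneg ht0.le (abs_nonneg (ν 1))]
      exact le_of_mul_le_mul_left h2 ht0
    · have h1 : |k t * ν I| ≤ C * (t * q) :=
        abs_le.2 ⟨by linarith [m1.1, m2.2], by linarith [m1.2, m2.1]⟩
      rw [abs_mul, abs_of_pos (by linarith)] at h1
      have h2 : t * |ν I| ≤ t * (C * q) := by nlinarith [abs_nonneg (ν I)]
      exact le_of_mul_le_mul_left h2 ht0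
  have z1 : ν 1 = 0 := abs_nonpos_iff.1 (ge_of_tendsto t2 (key.mono fun _ h => h.1))
  have z2 : ν I = 0 := abs_nonpos_iff.1 (ge_of_tendsto t2 (key.mono fun _ h => h.2))
  have h1 := hlin (ω * I).re (ω * I).im
  rw [re_add_im, z1, z2] at h1
  simp only [ν] at h1
  rw [← mul_assoc, hωω] at h1
  simp at h1

theorem zero_mem_frontier : (0 : ℂ) ∈ frontier Dom :=
  (mem_frontier (mem_ball_self two_pos)).2 (by simp [h_zero])

theorem not_graph {P : Set ℝ → (ℝ → ℝ) → Prop}
    (hP : ∀ J γ, IsOpen J → 0 ∈ J → P J γ → ∃ α C : ℝ, 0 < α ∧ 0 ≤ C ∧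
      ∀ᶠ s in 𝓝 (0 : ℝ), DifferentiableAt ℝ γ s ∧ |deriv γ s - deriv γ 0| ≤ C * |s| ^ α) :
    ¬ BoundaryGraphNearZero Dom P := by
  rintro ⟨ρ, hρ, ω, hω, J, γ, hJ, hPJ, he⟩
  have hsub : frontier Dom ∩ ball 0 ρ ⊆ (fun s : ℝ => ω * (s + γ s * I)) '' J :=
    he ▸ inter_subset_left
  obtain ⟨s, hs, h0⟩ := hsub ⟨zero_mem_frontier, mem_ball_self hρ⟩
  have hω0 : ω ≠ 0 := by rw [← norm_pos_iff, hω]; exact one_pos
  have h1 := (mul_eq_zero.1 h0).resolve_left hω0
  have h2 : s = 0 := by simpa using congrArg re h1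
  subst h2
  have h3 : γ 0 = 0 := by simpa using h1
  obtain ⟨α, C, hα, hC, h4⟩ := hP J γ hJ hs hPJ
  obtain ⟨e, he0, h5⟩ := Metric.eventually_nhds_iff.1 h4
  refine not_flat hρ hω hsub hα hC he0 (L := deriv γ 0) fun s hs => ?_
  have h6 : ∀ x ∈ closedBall (0 : ℝ) |s|, dist x 0 < e := fun x hx =>
    (mem_closedBall.1 hx).trans_lt hs
  have h7 := (convex_closedBall (0 : ℝ) |s|).norm_image_sub_le_of_norm_hasDerivWithin_le
    (f := fun x => γ x - deriv γ 0 * x) (f' := fun x => deriv γ x - deriv γ 0) (C := C * |s| ^ α)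
    (x := 0) (y := s)
    (fun x hx => (((h5 (h6 x hx)).1.hasDerivAt.sub
      ((hasDerivAt_id x).const_mul (deriv γ 0))).congr_deriv (by simp)).hasDerivWithinAt)
    (fun x hx => (h5 (h6 x hx)).2.trans (mul_le_mul_of_nonneg_left
      (Real.rpow_le_rpow (abs_nonneg _) (by simpa using hx) hα.le) hC))
    (mem_closedBall_self (abs_nonneg _)) (by simp)
  rw [Real.rpow_add' (abs_nonneg _) (by linarith), Real.rpow_one]
  simp only [h3, mul_zero, sub_zero, Real.norm_eq_abs] at h7
  linarith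

theorem not_holder (α : NNReal) (hα : 0 < α) : ¬ BoundaryGraphNearZero Dom fun J γ =>
    ContDiffOn ℝ 1 γ J ∧ ∃ C : NNReal, HolderOnWith C α (deriv γ) J := by
  refine not_graph fun J γ hJ h0 ⟨h1, C, h2⟩ => ⟨α, C, hα, C.2, ?_⟩
  filter_upwards [hJ.mem_nhds h0] with s hs
  refine ⟨(h1.contDiffAt (hJ.mem_nhds hs)).differentiableAt one_ne_zero, ?_⟩
  simpa [Real.dist_eq] using h2.dist_le hs h0

theorem not_C2 : ¬ BoundaryGraphNearZero Dom fun J γ => ContDiffOn ℝ 2 γ J := by
  refine not_graph fun J γ hJ h0 h1 => ?_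
  have h2 := ((contDiffOn_succ_iff_deriv_of_isOpen (n := 1) hJ).1 h1).2.2
  obtain ⟨K, t, ht, h3⟩ := (h2.contDiffAt (hJ.mem_nhds h0)).exists_lipschitzOnWith
  refine ⟨1, K, one_pos, K.2, ?_⟩
  filter_upwards [hJ.mem_nhds h0, ht] with s hs hst
  refine ⟨(h1.contDiffAt (hJ.mem_nhds hs)).differentiableAt two_ne_zero, ?_⟩
  simpa [Real.dist_eq] using h3.dist_le_mul s hst 0 (mem_of_mem_nhds ht)

theorem graph_mono {D : Set ℂ} {P P' : Set ℝ → (ℝ → ℝ) → Prop} (h : ∀ J γ, P J γ → P' J γ) :
    BoundaryGraphNearZero D P → BoundaryGraphNearZero D P' :=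
  fun ⟨ρ, hρ, ω, hω, J, γ, hJ, hP, he⟩ => ⟨ρ, hρ, ω, hω, J, γ, hJ, h J γ hP, he⟩

open Laplacian InnerProductSpace MeasureTheory in
theorem main : ∃ (D : Set ℂ) (u : ℂ → ℝ),
    IsLipschitzDomain D ∧ Bornology.IsBounded D ∧ 0 ∈ frontier D ∧
    DifferentiableOn ℝ u (ball 0 2) ∧ (∃ K, LipschitzOnWith K (fderiv ℝ u) (ball 0 2)) ∧
    (∀ᵐ z ∂(volume.restrict (ball (0 : ℂ) 2)),
      ContDiffAt ℝ 2 u z ∧ Δ u z = D.indicator Complex.re z) ∧
    (∀ z ∈ ball (0 : ℂ) 2 \ closure D, u z = 0) ∧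
    BoundaryGraphNearZero D (fun J γ => ContDiffOn ℝ 1 γ J) ∧
    (∀ α : NNReal, 0 < α → ¬ BoundaryGraphNearZero D fun J γ =>
      ContDiffOn ℝ 1 γ J ∧ ∃ C : NNReal, HolderOnWith C α (deriv γ) J) ∧
    (¬ BoundaryGraphNearZero D fun J γ => ContDiffOn ℝ (⊤ : ℕ∞) γ J) ∧
    (¬ BoundaryGraphNearZero D fun J γ => AnalyticOnNhd ℝ γ J) := by
  refine ⟨Dom, u, lipschitz_Dom, isBounded_Dom, zero_mem_frontier, ?_,
    ⟨72, lip_fderiv_u.mono ball_sub_Q⟩, ?_, ?_, boundary_C1, not_holder, ?_, ?_⟩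
  · exact fun z hz => (hasFDerivAt_u (ball_sub_Q hz)).differentiableAt.differentiableWithinAt
  · have h1 : ∀ᵐ z : ℂ, z.re ≠ h z.im := by
      rw [ae_iff]; simpa using null_graph
    filter_upwards [ae_restrict_of_ae h1, ae_restrict_mem measurableSet_ball] with z hz hb
    rcases lt_or_gt_of_ne hz with h2 | h2
    · have h3 := u_eq_zero h2
      rw [indicator_of_notMem (fun h4 => lt_asymm h2 ((mem_Dom hb).1 h4)),
        (laplacian_congr_nhds h3).self_of_nhds]
      exact ⟨contDiffAt_const.congr_of_eventuallyEq h3, by simp⟩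
    · have h3 := u_eq_U0 h2
      have h4 := U0_smooth ⟨(ball_sub_Q hb).1, h2, (ball_sub_Q hb).2⟩
      rw [indicator_of_mem ((mem_Dom hb).2 h2), (laplacian_congr_nhds h3).self_of_nhds]
      exact ⟨h4.1.congr_of_eventuallyEq h3, h4.2⟩
  · intro z hz
    exact if_neg fun h1 => hz.2 (subset_closure ((mem_Dom hz.1).2 h1))
  · exact fun h1 => not_C2 (graph_mono (fun J γ h2 => h2.of_le (WithTop.coe_le_coe.2 (le_top : (2 : ℕ∞) ≤ ⊤))) h1)
  · exact fun h1 => not_C2 (graph_mono (fun J γ h2 => h2.contDiffOn_of_completeSpace) h1)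

end Pool.Agent.H257Z.FB
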