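import Mathlib

set_option autoImplicit false

/-! The conformal map `w ↦ w (7 - log w)` on the right half disc. -/

namespace Pool.Agent.H257Z.FB

open Complex Set Filter Topology

/-- `w log w`. -/
noncomputable def ml (w : ℂ) : ℂ := w * log w

/-- The conformal map. -/
noncomputable def phi (w : ℂ) : ℂ := 7 * w - ml w

theorem continuousAt_ml_zero : ContinuousAt ml 0 := by
  have h0 : ml 0 = 0 := by simp [ml]
  rw [ContinuousAt, h0]
  have h1 : Tendsto (fun w : ℂ => |‖w‖ * Real.log ‖w‖| + ‖w‖ * Real.pi) (𝓝 0)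
      (𝓝 (|‖(0 : ℂ)‖ * Real.log ‖(0 : ℂ)‖| + ‖(0 : ℂ)‖ * Real.pi)) :=
    (((Real.continuous_mul_log.comp continuous_norm).abs).add
      (continuous_norm.mul continuous_const)).continuousAt
  simp only [norm_zero, zero_mul, abs_zero, add_zero] at h1
  refine squeeze_zero_norm (fun w => ?_) h1
  rw [ml, norm_mul, abs_mul, abs_norm, ← mul_add]
  refine mul_le_mul_of_nonneg_left ?_ (norm_nonneg _)
  refine (norm_le_abs_re_add_abs_im _).trans ?_
  rw [log_re, log_im]
  exact add_le_add le_rfl (abs_arg_le_pi w)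

theorem mem_slitPlane_of {w : ℂ} (h : 0 ≤ w.re) (h0 : w ≠ 0) : w ∈ slitPlane := by
  rw [mem_slitPlane_iff]
  rcases h.lt_or_eq with h | h
  · exact Or.inl h
  · right
    intro hi
    exact h0 (Complex.ext h.symm hi)

theorem continuousAt_ml {w : ℂ} (h : 0 ≤ w.re) : ContinuousAt ml w := by
  by_cases h0 : w = 0
  · subst h0; exact continuousAt_ml_zero
  · exact continuousAt_id.mul (continuousAt_clog (mem_slitPlane_of h h0))

theorem continuousAt_phi {w : ℂ} (h : 0 ≤ w.re) : ContinuousAt phi w :=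
  (continuousAt_const.mul continuousAt_id).sub (continuousAt_ml h)

theorem hasStrictDerivAt_ml {w : ℂ} (h : w ∈ slitPlane) :
    HasStrictDerivAt ml (log w + 1) w := by
  have h0 : w ≠ 0 := slitPlane_ne_zero h
  have := (hasStrictDerivAt_id w).mul (hasStrictDerivAt_log h)
  exact this.congr_deriv (by simp [h0])

theorem hasStrictDerivAt_phi {w : ℂ} (h : w ∈ slitPlane) :
    HasStrictDerivAt phi (6 - log w) w := by
  have := ((hasStrictDerivAt_id w).const_mul 7).sub (hasStrictDerivAt_ml h)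
  exact this.congr_deriv (by ring)

theorem one_le_re {w : ℂ} (h0 : w ≠ 0) (h : ‖w‖ ≤ 6) : 1 ≤ (6 - log w).re := by
  have := Real.log_le_sub_one_of_pos (norm_pos_iff.2 h0)
  simp only [sub_re, log_re, re_ofNat]
  linarith

theorem mono_open {a b : ℂ} (ha : 0 < a.re) (hb : 0 < b.re) (ha' : ‖a‖ ≤ 6) (hb' : ‖b‖ ≤ 6) :
    ‖a - b‖ ^ 2 ≤ ((phi a - phi b) * (starRingEnd ℂ) (a - b)).re := by
  set d := a - b with hd
  let F : ℝ → ℝ := fun t => (phi (b + t * d) * (starRingEnd ℂ) d).re - t * ‖d‖ ^ 2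
  have hmem : ∀ t ∈ Icc (0 : ℝ) 1, 0 < (b + t * d).re ∧ ‖b + t * d‖ ≤ 6 := by
    intro t ht
    have e : b + t * d = ((1 - t : ℝ) : ℂ) * b + t * a := by rw [hd]; push_cast; ring
    rw [e]
    constructor
    · simp only [add_re, re_ofReal_mul]
      rcases ht.1.lt_or_eq with h | h
      · have := mul_pos h ha
        have := mul_nonneg (sub_nonneg.2 ht.2) hb.le
        linarith
      · rw [← h]; simpa using hb
    · refine (norm_add_le _ _).trans ?_
      rw [norm_mul, norm_mul, norm_real, norm_real, Real.norm_of_nonneg (sub_nonneg.2 ht.2),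
        Real.norm_of_nonneg ht.1]
      nlinarith [ht.1, ht.2]
  have hder : ∀ t ∈ Icc (0 : ℝ) 1,
      HasDerivAt F (((6 - log (b + t * d)) * d * (starRingEnd ℂ) d).re - ‖d‖ ^ 2) t := by
    intro t ht
    have h1 : HasDerivAt (fun t : ℝ => b + t * d) d t := by
      simpa using ((hasDerivAt_id t).ofReal_comp.mul_const d).const_add b
    have h2 := ((hasStrictDerivAt_phi (Or.inl (hmem t ht).1)).hasDerivAt.comp_of_eq t h1 rfl)
    have h3 := (reCLM.hasFDerivAt.comp_hasDerivAt t (h2.mul_const ((starRingEnd ℂ) d)))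
    have h4 := h3.sub ((hasDerivAt_id t).mul_const (‖d‖ ^ 2))
    exact h4.congr_deriv (by simp)
  have hmono : MonotoneOn F (Icc 0 1) := by
    refine monotoneOn_of_deriv_nonneg (convex_Icc 0 1)
      (fun t ht => (hder t ht).continuousAt.continuousWithinAt)
      (fun t ht => (hder t (interior_subset ht)).differentiableAt.differentiableWithinAt) ?_
    intro t ht
    have ht' := interior_subset ht
    rw [(hder t ht').deriv, mul_assoc, mul_conj, re_mul_ofReal, normSq_eq_norm_sq]
    have h0 : b + t * d ≠ 0 := fun h => by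
      have := (hmem t ht').1
      rw [h] at this; simp at this
    have := one_le_re h0 (hmem t ht').2
    nlinarith [sq_nonneg ‖d‖]
  have := hmono (left_mem_Icc.2 zero_le_one) (right_mem_Icc.2 zero_le_one) zero_le_one
  simp only [F, ofReal_zero, zero_mul, add_zero, sub_zero, ofReal_one, one_mul] at this
  have e : b + d = a := by rw [hd]; ring
  rw [e] at this
  rw [sub_mul, sub_re]
  linarith

/-- The closed half disc. -/
def S : Set ℂ := {w | 0 ≤ w.re ∧ ‖w‖ ≤ 5}

theorem mono {a b : ℂ} (ha : a ∈ S) (hb : b ∈ S) :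
    ‖a - b‖ ^ 2 ≤ ((phi a - phi b) * (starRingEnd ℂ) (a - b)).re := by
  have t : ∀ w : ℂ, Tendsto (fun e : ℝ => w + e) (𝓝[>] 0) (𝓝 w) := by
    intro w
    have : Tendsto (fun e : ℝ => w + e) (𝓝 0) (𝓝 (w + (0 : ℝ))) :=
      (continuous_const.add continuous_ofReal).continuousAt
    simpa using this.mono_left nhdsWithin_le_nhds
  have h1 : Tendsto (fun e : ℝ => ((phi (a + e) - phi (b + e)) * (starRingEnd ℂ) (a - b)).re)
      (𝓝[>] 0) (𝓝 ((phi a - phi b) * (starRingEnd ℂ) (a - b)).re) :=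
    (continuous_re.tendsto _).comp
      ((((continuousAt_phi ha.1).tendsto.comp (t a)).sub
        ((continuousAt_phi hb.1).tendsto.comp (t b))).mul_const _)
  refine ge_of_tendsto h1 ?_
  filter_upwards [Ioo_mem_nhdsGT (zero_lt_one' ℝ)] with e he
  have hn : ∀ w ∈ S, 0 < (w + e).re ∧ ‖w + e‖ ≤ 6 := by
    intro w hw
    refine ⟨by simp only [add_re, ofReal_re]; linarith [hw.1, he.1], ?_⟩
    refine (norm_add_le _ _).trans ?_
    rw [norm_real, Real.norm_of_nonneg he.1.le]
    linarith [hw.2, he.2]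
  have := mono_open (hn a ha).1 (hn b hb).1 (hn a ha).2 (hn b hb).2
  rwa [add_sub_add_right_eq_sub] at this

theorem expand {a b : ℂ} (ha : a ∈ S) (hb : b ∈ S) : ‖a - b‖ ≤ ‖phi a - phi b‖ := by
  have h1 := (mono ha hb).trans (re_le_norm _)
  rw [norm_mul, norm_conj, sq] at h1
  rcases (norm_nonneg (a - b)).lt_or_eq with h | h
  · exact le_of_mul_le_mul_right h1 h
  · rw [← h]; exact norm_nonneg _

theorem injOn_phi : InjOn phi S := by
  intro a ha b hb h
  have := expand ha hb
  rw [h, sub_self, norm_zero] at this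
  exact sub_eq_zero.1 (norm_le_zero_iff.1 this)

theorem phi_zero : phi 0 = 0 := by simp [phi, ml]

theorem zero_mem_S : (0 : ℂ) ∈ S := by simp [S]

theorem norm_le_phi {a : ℂ} (ha : a ∈ S) : ‖a‖ ≤ ‖phi a‖ := by
  simpa [phi_zero] using expand ha zero_mem_S

/-- The ordinate of the boundary curve. -/
noncomputable def k (t : ℝ) : ℝ := 7 * t - t * Real.log t

theorem ml_I (t : ℝ) : ml (t * I) = -(Real.pi / 2 * |t| : ℝ) + (t * Real.log t : ℝ) * I := by
  rcases lt_trichotomy t 0 with h | h | h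
  · have e : (t : ℂ) * I = ((-t : ℝ) : ℂ) * (-I) := by push_cast; ring
    rw [ml]
    conv_lhs => rw [e, log_ofReal_mul (by linarith) (by simp), log_neg_I, Real.log_neg_eq_log]
    rw [abs_of_neg h]
    push_cast
    linear_combination (t * Real.pi / 2 : ℂ) * I_sq * (-1)
  · subst h; simp [ml]
  · rw [ml, log_ofReal_mul h (by simp), log_I, abs_of_pos h]
    push_cast
    linear_combination (t * Real.pi / 2 : ℂ) * I_sq

theorem phi_I (t : ℝ) : phi (t * I) = (Real.pi / 2 * |t| : ℝ) + (k t : ℝ) * I := by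
  rw [phi, ml_I, k]; push_cast; ring

theorem I_mem_S {t : ℝ} (ht : t ∈ Icc (-5 : ℝ) 5) : (t : ℂ) * I ∈ S := by
  refine ⟨by simp, ?_⟩
  rw [norm_mul, norm_I, mul_one, norm_real, Real.norm_eq_abs, abs_le]
  exact ht

theorem k_expand {a b : ℝ} (ha : a ∈ Icc (-5 : ℝ) 5) (hb : b ∈ Icc (-5 : ℝ) 5) :
    (a - b) ^ 2 ≤ (k a - k b) * (a - b) := by
  have := mono (I_mem_S ha) (I_mem_S hb)
  rw [phi_I, phi_I, ← sub_mul, norm_mul, norm_I, mul_one, ← ofReal_sub, norm_real,
    Real.norm_eq_abs, sq_abs] at this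
  simpa using this

theorem k_abs {a b : ℝ} (ha : a ∈ Icc (-5 : ℝ) 5) (hb : b ∈ Icc (-5 : ℝ) 5) :
    |a - b| ≤ |k a - k b| := by
  have h1 := (k_expand ha hb).trans (le_abs_self _)
  rw [abs_mul, ← sq_abs, sq] at h1
  rcases (abs_nonneg (a - b)).lt_or_eq with h | h
  · exact le_of_mul_le_mul_right h1 h
  · rw [← h]; exact abs_nonneg _

theorem continuous_k : Continuous k :=
  (continuous_const.mul continuous_id).sub Real.continuous_mul_log

theorem k_zero : k 0 = 0 := by simp [k]

theorem k_surj {y : ℝ} (hy : y ∈ Icc (-2 : ℝ) 2) : ∃ t ∈ Icc (-5 : ℝ) 5, k t = y := by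
  have h1 := k_expand (a := 5) (b := 0) (by norm_num) (by norm_num)
  have h2 := k_expand (a := -5) (b := 0) (by norm_num) (by norm_num)
  rw [k_zero] at h1 h2
  exact intermediate_value_Icc (by norm_num) continuous_k.continuousOn
    ⟨by linarith [hy.1], by linarith [hy.2]⟩

/-- Clamping to `[-2, 2]`. -/
noncomputable def cl (y : ℝ) : ℝ := max (-2) (min 2 y)

theorem cl_mem (y : ℝ) : cl y ∈ Icc (-2 : ℝ) 2 :=
  ⟨le_max_left _ _, max_le (by norm_num) (min_le_left _ _)⟩

theorem cl_eq {y : ℝ} (hy : y ∈ Icc (-2 : ℝ) 2) : cl y = y := by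
  rw [cl, min_eq_right hy.2, max_eq_right hy.1]

theorem cl_lip (a b : ℝ) : |cl a - cl b| ≤ |a - b| := by
  refine (abs_max_sub_max_le_max _ _ _ _).trans ?_
  rw [sub_self, abs_zero, max_eq_right (abs_nonneg _)]
  refine (abs_min_sub_min_le_max _ _ _ _).trans ?_
  rw [sub_self, abs_zero, max_eq_right (abs_nonneg _)]

/-- The inverse of `k`. -/
noncomputable def T (y : ℝ) : ℝ := Function.invFunOn k (Icc (-5 : ℝ) 5) (cl y)

theorem T_mem (y : ℝ) : T y ∈ Icc (-5 : ℝ) 5 := Function.invFunOn_mem (k_surj (cl_mem y))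

theorem k_T (y : ℝ) : k (T y) = cl y := Function.invFunOn_eq (k_surj (cl_mem y))

theorem T_lip (a b : ℝ) : |T a - T b| ≤ |a - b| := by
  have := k_abs (T_mem a) (T_mem b)
  rw [k_T, k_T] at this
  exact this.trans (cl_lip a b)

theorem T_k {t : ℝ} (ht : t ∈ Icc (-5 : ℝ) 5) (h : k t ∈ Icc (-2 : ℝ) 2) : T (k t) = t := by
  have := k_abs (T_mem (k t)) ht
  rw [k_T, cl_eq h, sub_self, abs_zero] at this
  exact sub_eq_zero.1 (abs_nonpos_iff.1 this)

theorem T_zero : T 0 = 0 := by
  have := T_k (t := 0) (by norm_num) (by rw [k_zero]; norm_num)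
  rwa [k_zero] at this

theorem abs_T_le (y : ℝ) : |T y| ≤ 2 := by
  have := k_abs (T_mem y) (b := 0) (by norm_num)
  rw [k_T, k_zero, sub_zero, sub_zero] at this
  exact this.trans (abs_le.2 (cl_mem y))

/-- The boundary as a graph over the imaginary axis. -/
noncomputable def h (y : ℝ) : ℝ := Real.pi / 2 * |T y|

theorem h_nonneg (y : ℝ) : 0 ≤ h y := by unfold h; positivity

theorem h_lt (y : ℝ) : h y < 4 := by
  have := abs_T_le y
  have := Real.pi_lt_four
  have := Real.pi_pos
  unfold h; nlinarith [abs_nonneg (T y)]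

theorem h_zero : h 0 = 0 := by simp [h, T_zero]

theorem h_lip (a b : ℝ) : |h a - h b| ≤ 2 * |a - b| := by
  rw [h, h, ← mul_sub, abs_mul, abs_of_pos (by positivity : 0 < Real.pi / 2)]
  have h1 := (abs_abs_sub_abs_le_abs_sub (T a) (T b)).trans (T_lip a b)
  have := Real.pi_lt_four
  exact mul_le_mul (by linarith) h1 (abs_nonneg _) (by norm_num)

theorem continuous_h : Continuous h := by
  have : LipschitzWith 2 h := LipschitzWith.of_dist_le_mul fun a b => by
    simpa [Real.dist_eq] using h_lip a b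
  exact this.continuous

theorem phi_T {y : ℝ} (hy : y ∈ Icc (-2 : ℝ) 2) : phi (T y * I) = h y + y * I := by
  rw [phi_I, k_T, cl_eq hy, h]

theorem region_preconnected {A B : ℝ → ℝ} (hA : Continuous A) (hB : Continuous B) {Y : Set ℝ}
    (hY : IsPreconnected Y) (hAB : ∀ y ∈ Y, A y < B y) :
    IsPreconnected {z : ℂ | z.im ∈ Y ∧ A z.im < z.re ∧ z.re < B z.im} := by
  let f : ℝ × ℝ → ℂ := fun q => ((A q.2 + q.1 * (B q.2 - A q.2) : ℝ) : ℂ) + (q.2 : ℂ) * I
  have hf : Continuous f := by fun_prop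
  have := (isPreconnected_Ioo (a := (0 : ℝ)) (b := 1)).prod hY |>.image f hf.continuousOn
  convert this using 1
  ext z
  constructor
  · rintro ⟨h1, h2, h3⟩
    have h4 := sub_pos.2 (hAB _ h1)
    refine ⟨((z.re - A z.im) / (B z.im - A z.im), z.im), ⟨⟨div_pos (by linarith) h4, ?_⟩, h1⟩, ?_⟩
    · rw [div_lt_one h4]; linarith
    · simp only [f]
      rw [div_mul_cancel₀ _ h4.ne', add_sub_cancel, re_add_im]
  · rintro ⟨q, ⟨⟨h1, h2⟩, h3⟩, rfl⟩
    have h4 := sub_pos.2 (hAB _ h3)
    have e1 : (f q).im = q.2 := by simp [f]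
    have e2 : (f q).re = A q.2 + q.1 * (B q.2 - A q.2) := by simp [f]
    simp only [mem_ofPred_eq, e1, e2]
    exact ⟨h3, by nlinarith, by nlinarith⟩

/-- The open half disc. -/
def S0 : Set ℂ := {w | 0 < w.re ∧ ‖w‖ < 5}

theorem S0_sub : S0 ⊆ S := fun _ h => ⟨h.1.le, h.2.le⟩

theorem isOpen_S0 : IsOpen S0 :=
  (isOpen_lt continuous_const continuous_re).inter (isOpen_lt continuous_norm continuous_const)

theorem deriv_ne {w : ℂ} (hw : w ∈ S0) : 6 - log w ≠ 0 := by
  intro h
  have h0 : w ≠ 0 := fun h => by have := hw.1; rw [h] at this; simp at this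
  have := one_le_re h0 (by linarith [hw.2])
  rw [h] at this
  norm_num at this

/-- The part of the domain inside a box. -/
def E : Set ℂ := {z | z.im ∈ Ioo (-2 : ℝ) 2 ∧ h z.im < z.re ∧ z.re < 4}

theorem isOpen_E : IsOpen E :=
  (isOpen_Ioo.preimage continuous_im).inter
    ((isOpen_lt (continuous_h.comp continuous_im) continuous_re).inter
      (isOpen_lt continuous_re continuous_const))

theorem lt_re_phi {w : ℂ} (hw : w ∈ S0) (hy : (phi w).im ∈ Icc (-2 : ℝ) 2) :
    h (phi w).im < (phi w).re := by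
  have h1 := mono (S0_sub hw) (I_mem_S (T_mem (phi w).im))
  rw [phi_T hy] at h1
  have h2 : 0 < ‖w - T (phi w).im * I‖ := by
    rw [norm_pos_iff]
    intro h0
    have := congrArg re h0
    simp at this
    exact hw.1.ne' this
  have h3 : 0 < ((phi w).re - h (phi w).im) * w.re := by
    have := (pow_pos h2 2).trans_le h1
    simpa using this
  exact sub_pos.1 ((mul_pos_iff_of_pos_right hw.1).1 h3)

theorem E_sub : E ⊆ phi '' S0 := by
  have hU : IsOpen (phi '' S0) := by
    rw [isOpen_iff_mem_nhds]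
    rintro _ ⟨w, hw, rfl⟩
    rw [← (hasStrictDerivAt_phi (Or.inl hw.1)).map_nhds_eq (deriv_ne hw)]
    exact image_mem_map (isOpen_S0.mem_nhds hw)
  have hSc : IsCompact S := by
    have : S = {w : ℂ | 0 ≤ w.re} ∩ Metric.closedBall 0 5 := by ext w; simp [S]
    rw [this]
    exact (isCompact_closedBall 0 5).inter_left (isClosed_le continuous_const continuous_re)
  have hK : IsClosed (phi '' S) :=
    (hSc.image_of_continuousOn fun w hw => (continuousAt_phi hw.1).continuousWithinAt).isClosed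
  have hE : IsPreconnected E :=
    region_preconnected continuous_h continuous_const isPreconnected_Ioo fun y _ => h_lt y
  refine hE.subset_left_of_subset_union hU hK.isOpen_compl ?_ ?_ ?_
  · exact disjoint_compl_right.mono_left (image_mono S0_sub)
  · intro z hz
    by_cases hzK : z ∈ phi '' S
    · left
      obtain ⟨w, hw, rfl⟩ := hzK
      obtain ⟨h1, h2, h3⟩ := hz
      refine ⟨w, ⟨?_, ?_⟩, rfl⟩
      · rcases hw.1.lt_or_eq with h | h
        · exact h
        · exfalso
          have e : w = w.im * I := by apply Complex.ext <;> simp [h.symm]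
          have ht : w.im ∈ Icc (-5 : ℝ) 5 := abs_le.1 ((abs_im_le_norm w).trans hw.2)
          rw [e, phi_I] at h1 h2
          simp only [add_im, ofReal_im, mul_im, ofReal_re, I_im, mul_one, I_re, mul_zero, add_zero,
            zero_add, add_re, mul_re, sub_self] at h1 h2
          rw [FB.h, T_k ht (Ioo_subset_Icc_self h1)] at h2
          exact lt_irrefl _ h2
      · have h4 := norm_le_phi hw
        have h5 : ‖phi w‖ ^ 2 = (phi w).re ^ 2 + (phi w).im ^ 2 := by
          rw [← normSq_eq_norm_sq, normSq_apply]; ring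
        have h6 := h_nonneg (phi w).im
        have h7 : ‖phi w‖ ^ 2 < 5 ^ 2 := by nlinarith [h1.1, h1.2]
        exact h4.trans_lt (lt_of_pow_lt_pow_left₀ 2 (by norm_num) h7)
    · exact Or.inr hzK
  · have h1 : ∀ᶠ w in 𝓝 (0 : ℂ), ‖phi w‖ < 2 := by
      have := (continuousAt_phi (w := 0) le_rfl).norm
      rw [ContinuousAt, phi_zero, norm_zero] at this
      exact this.eventually (gt_mem_nhds (by norm_num))
    obtain ⟨e, he, h2⟩ := Metric.eventually_nhds_iff.1 h1
    let w : ℂ := (min (e / 2) 1 : ℝ)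
    have hpos : 0 < min (e / 2) 1 := lt_min (by linarith) one_pos
    have hw : w ∈ S0 := by
      refine ⟨by simpa [w] using hpos, ?_⟩
      simp only [w]
      rw [norm_real, Real.norm_of_nonneg hpos.le]
      linarith [min_le_right (e / 2) 1]
    have h3 : ‖phi w‖ < 2 := by
      apply h2
      simp only [w]
      rw [dist_zero_right, norm_real, Real.norm_of_nonneg hpos.le]
      linarith [min_le_left (e / 2) 1]
    have h4 := abs_lt.1 ((abs_im_le_norm _).trans_lt h3)
    have h5 := abs_lt.1 ((abs_re_le_norm _).trans_lt h3)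
    exact ⟨phi w, ⟨h4, lt_re_phi hw (Ioo_subset_Icc_self h4), by linarith [h5.2]⟩, w, hw, rfl⟩

/-- The inverse map. -/
noncomputable def psi (z : ℂ) : ℂ := Function.invFunOn phi S z

theorem psi_phi {w : ℂ} (hw : w ∈ S) : psi (phi w) = w := injOn_phi.leftInvOn_invFunOn hw

theorem hasStrictDerivAt_psi {w : ℂ} (hw : w ∈ S0) :
    HasStrictDerivAt psi (6 - log w)⁻¹ (phi w) := by
  refine (hasStrictDerivAt_phi (Or.inl hw.1)).to_local_left_inverse (deriv_ne hw) ?_
  filter_upwards [isOpen_S0.mem_nhds hw] with x hx using psi_phi (S0_sub hx)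

end Pool.Agent.H257Z.FB
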