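import Pool.Agent.H257Z.FB.Map

set_option autoImplicit false

/-! The solution and its regularity. -/

namespace Pool.Agent.H257Z.FB

open Complex Set Filter Topology Laplacian InnerProductSpace

/-- The holomorphic correction, in the coordinate of the half disc. -/
noncomputable def V (w : ℂ) : ℂ := (Real.pi ^ 2 / 24 : ℝ) * (w ^ 2 * (ml w - 19 / 3 * w))

theorem continuousAt_V {w : ℂ} (h : 0 ≤ w.re) : ContinuousAt V w :=
  continuousAt_const.mul ((continuousAt_id.pow 2).mul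
    ((continuousAt_ml h).sub (continuousAt_const.mul continuousAt_id)))

theorem hasDerivAt_V {w : ℂ} (h : w ∈ slitPlane) :
    HasDerivAt V (-(Real.pi ^ 2 / 8 : ℝ) * w ^ 2 * (6 - log w)) w := by
  have := (((hasDerivAt_id w).pow 2).mul ((hasStrictDerivAt_ml h).hasDerivAt.sub
    ((hasDerivAt_id w).const_mul (19 / 3)))).const_mul ((Real.pi ^ 2 / 24 : ℝ) : ℂ)
  exact this.congr_deriv (by simp [ml]; ring)

theorem re_V_I (t : ℝ) : (V (t * I)).re = (Real.pi / 2 * |t|) ^ 3 / 6 := by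
  have h1 : |t| ^ 3 = t ^ 2 * |t| := by rw [← sq_abs]; ring
  have h2 : V (t * I) = ((Real.pi ^ 3 / 48 * (t ^ 2 * |t|) : ℝ) : ℂ)
      + ((Real.pi ^ 2 / 24 * t ^ 2 * (19 / 3 * t - t * Real.log t) : ℝ) : ℂ) * I := by
    rw [V, ml_I]
    push_cast
    linear_combination ((Real.pi : ℂ) ^ 2 / 24 * t ^ 2 *
      (-(Real.pi / 2 * ((|t| : ℝ) : ℂ)) + t * ((Real.log t : ℝ) : ℂ) * I - 19 / 3 * (t * I))) * I_sq
  rw [h2, add_re, ofReal_re, re_ofReal_mul, I_re, mul_pow, h1]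
  ring

/-- The solution inside the domain. -/
noncomputable def U0 (z : ℂ) : ℝ := z.re ^ 3 / 6 - (V (psi z)).re

/-- The complex gradient inside the domain. -/
noncomputable def g (z : ℂ) : ℂ := (z.re ^ 2 / 2 : ℝ) + (Real.pi ^ 2 / 8 : ℝ) * psi z ^ 2

/-- The real-linear form `v ↦ re (c v)`. -/
noncomputable def La : ℂ →L[ℝ] ℂ →L[ℝ] ℝ :=
  (ContinuousLinearMap.compL ℝ ℂ ℂ ℝ reCLM).comp (ContinuousLinearMap.mul ℝ ℂ)

theorem La_apply (c v : ℂ) : La c v = (c * v).re := rfl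

theorem norm_La (c : ℂ) : ‖La c‖ ≤ ‖c‖ := by
  refine ContinuousLinearMap.opNorm_le_bound _ (norm_nonneg _) fun v => ?_
  rw [La_apply, ← norm_mul]
  exact abs_re_le_norm _

theorem hasDerivAt_W {z : ℂ} (hz : z ∈ E) :
    HasDerivAt (V ∘ psi) (-(Real.pi ^ 2 / 8 : ℝ) * psi z ^ 2) z := by
  obtain ⟨w, hw, rfl⟩ := E_sub hz
  have h1 := (hasDerivAt_V (Or.inl hw.1)).comp_of_eq (phi w)
    (hasStrictDerivAt_psi hw).hasDerivAt (psi_phi (S0_sub hw)).symm
  rw [psi_phi (S0_sub hw)]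
  refine h1.congr_deriv ?_
  rw [mul_assoc, mul_inv_cancel₀ (deriv_ne hw), mul_one]

theorem hasFDerivAt_cube (z : ℂ) :
    HasFDerivAt (fun z : ℂ => z.re ^ 3 / 6) ((z.re ^ 2 / 2) • reCLM) z := by
  have h1 : HasDerivAt (fun x : ℝ => x ^ 3 / 6) (z.re ^ 2 / 2) z.re :=
    ((hasDerivAt_pow 3 z.re).div_const 6).congr_deriv (by norm_num; ring)
  exact h1.comp_hasFDerivAt z reCLM.hasFDerivAt

theorem hasFDerivAt_U0 {z : ℂ} (hz : z ∈ E) : HasFDerivAt U0 (La (g z)) z := by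
  have h1 := reCLM.hasFDerivAt.comp z ((hasDerivAt_W hz).hasFDerivAt.restrictScalars ℝ)
  have h2 := (hasFDerivAt_cube z).sub h1
  refine h2.congr_fderiv ?_
  ext v
  simp only [La_apply, g, sub_apply, smul_apply,
    reCLM_apply, smul_eq_mul, ContinuousLinearMap.comp_apply,
    ContinuousLinearMap.coe_restrictScalars', ContinuousLinearMap.toSpanSingleton_apply,
    add_mul, add_re, re_ofReal_mul]
  rw [sub_eq_add_neg, ← neg_re]
  congr 2
  ring

theorem laplacian_cube (z : ℂ) : Δ (fun z : ℂ => z.re ^ 3 / 6 : ℂ → ℝ) z = z.re := by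
  have h1 : fderiv ℝ (fun z : ℂ => z.re ^ 3 / 6) = fun z : ℂ => (z.re ^ 2 / 2) • reCLM :=
    funext fun z => (hasFDerivAt_cube z).fderiv
  have h2 : HasFDerivAt (fun z : ℂ => z.re ^ 2 / 2) (z.re • reCLM) z := by
    have h1 : HasDerivAt (fun x : ℝ => x ^ 2 / 2) z.re z.re :=
      ((hasDerivAt_pow 2 z.re).div_const 2).congr_deriv (by norm_num)
    exact h1.comp_hasFDerivAt z reCLM.hasFDerivAt
  rw [laplacian_eq_iteratedFDeriv_complexPlane]
  simp only [iteratedFDeriv_two_apply, h1, (h2.smul_const reCLM).fderiv]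
  simp

theorem U0_smooth {z : ℂ} (hz : z ∈ E) : ContDiffAt ℝ 2 U0 z ∧ Δ U0 z = z.re := by
  have h1 : AnalyticAt ℂ (V ∘ psi) z :=
    DifferentiableOn.analyticAt (s := E)
      (fun x hx => (hasDerivAt_W hx).differentiableAt.differentiableWithinAt)
      (isOpen_E.mem_nhds hz)
  have h2 := h1.harmonicAt_re
  have h3 : ContDiffAt ℝ 2 (fun z : ℂ => z.re ^ 3 / 6) z :=
    ((reCLM.contDiff.pow 3).div_const 6).contDiffAt
  have e : U0 = (fun z : ℂ => z.re ^ 3 / 6) - fun z => ((V ∘ psi) z).re := rfl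
  rw [e]
  refine ⟨h3.sub h2.1, ?_⟩
  rw [h3.laplacian_sub h2.1, laplacian_cube, h2.2.self_of_nhds]
  simp

/-- The closed part of the domain inside the box. -/
def Eb : Set ℂ := {z | z.im ∈ Ioo (-2 : ℝ) 2 ∧ h z.im ≤ z.re ∧ z.re < 4}

theorem eq_phi_of_bdry {z : ℂ} (h1 : z.im ∈ Ioo (-2 : ℝ) 2) (h2 : h z.im = z.re) :
    z = phi (T z.im * I) := by
  rw [phi_T (Ioo_subset_Icc_self h1), h2, re_add_im]

theorem Eb_sub : Eb ⊆ phi '' S := by
  rintro z ⟨h1, h2, h3⟩
  rcases h2.lt_or_eq with h2 | h2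
  · exact image_mono S0_sub (E_sub ⟨h1, h2, h3⟩)
  · exact ⟨_, I_mem_S (T_mem _), (eq_phi_of_bdry h1 h2).symm⟩

theorem psi_mem {z : ℂ} (hz : z ∈ Eb) : psi z ∈ S := by
  obtain ⟨w, hw, rfl⟩ := Eb_sub hz
  rwa [psi_phi hw]

theorem psi_lip {a b : ℂ} (ha : a ∈ Eb) (hb : b ∈ Eb) : ‖psi a - psi b‖ ≤ ‖a - b‖ := by
  obtain ⟨w, hw, rfl⟩ := Eb_sub ha
  obtain ⟨v, hv, rfl⟩ := Eb_sub hb
  rw [psi_phi hw, psi_phi hv]
  exact expand hw hv

theorem psi_bdry {z : ℂ} (h1 : z.im ∈ Ioo (-2 : ℝ) 2) (h2 : h z.im = z.re) :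
    psi z = T z.im * I := by
  conv_lhs => rw [eq_phi_of_bdry h1 h2]
  exact psi_phi (I_mem_S (T_mem _))

theorem U0_bdry {z : ℂ} (h1 : z.im ∈ Ioo (-2 : ℝ) 2) (h2 : h z.im = z.re) : U0 z = 0 := by
  rw [U0, psi_bdry h1 h2, re_V_I, ← h2, h, sub_self]

theorem g_bdry {z : ℂ} (h1 : z.im ∈ Ioo (-2 : ℝ) 2) (h2 : h z.im = z.re) : g z = 0 := by
  rw [g, psi_bdry h1 h2, ← h2, h, mul_pow, sq_abs]
  push_cast
  linear_combination ((Real.pi : ℂ) ^ 2 / 8 * (T z.im) ^ 2) * I_sq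

theorem g_lip {a b : ℂ} (ha : a ∈ Eb) (hb : b ∈ Eb) : ‖g a - g b‖ ≤ 24 * ‖a - b‖ := by
  have e : g a - g b = (((a.re + b.re) / 2 * (a - b).re : ℝ) : ℂ)
      + (Real.pi ^ 2 / 8 : ℝ) * ((psi a + psi b) * (psi a - psi b)) := by
    rw [g, g, sub_re]; push_cast; ring
  rw [e]
  refine (norm_add_le _ _).trans ?_
  rw [norm_real, norm_mul, norm_mul, norm_mul, norm_real]
  have h1 : ‖(a.re + b.re) / 2‖ ≤ 4 := by
    rw [Real.norm_eq_abs, abs_le]
    constructor <;> linarith [h_nonneg a.im, h_nonneg b.im, ha.2.1, hb.2.1, ha.2.2, hb.2.2]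
  have h2 : ‖(a - b).re‖ ≤ ‖a - b‖ := abs_re_le_norm _
  have h3 : ‖Real.pi ^ 2 / 8‖ ≤ 2 := by
    rw [Real.norm_of_nonneg (by positivity)]
    nlinarith [Real.pi_lt_four, Real.pi_pos]
  have h4 : ‖psi a + psi b‖ ≤ 10 := by
    linarith [norm_add_le (psi a) (psi b), (psi_mem ha).2, (psi_mem hb).2]
  have h5 := mul_le_mul h1 h2 (norm_nonneg _) (by norm_num)
  have h6 := mul_le_mul h3 (mul_le_mul h4 (psi_lip ha hb) (norm_nonneg _) (by norm_num))
    (by positivity) (by norm_num)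
  linarith

theorem continuousOn_U0 : ContinuousOn U0 Eb := by
  have h1 : ContinuousOn psi Eb :=
    (LipschitzOnWith.of_dist_le_mul (K := 1) fun a ha b hb => by
      simpa [dist_eq_norm] using psi_lip ha hb).continuousOn
  refine ContinuousOn.sub (by fun_prop) (continuous_re.comp_continuousOn fun z hz => ?_)
  exact (continuousAt_V (psi_mem hz).1).comp_continuousWithinAt (h1 z hz)

theorem U0_bound {z : ℂ} (hz : z ∈ E) : |U0 z| ≤ 24 * (z.re - h z.im) ^ 2 := by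
  obtain ⟨h1, h2, h3⟩ := hz
  let c : ℝ → ℂ := fun t => t + z.im * I
  have hc1 : ∀ t, (c t).re = t := fun t => by simp [c]
  have hc2 : ∀ t, (c t).im = z.im := fun t => by simp [c]
  have hcE : ∀ t ∈ Ioo (h z.im) z.re, c t ∈ E := fun t ht =>
    ⟨by rwa [hc2], by rw [hc1, hc2]; exact ht.1, by rw [hc1]; exact ht.2.trans h3⟩
  have hcEb : ∀ t ∈ Icc (h z.im) z.re, c t ∈ Eb := fun t ht =>
    ⟨by rwa [hc2], by rw [hc1, hc2]; exact ht.1, by rw [hc1]; exact ht.2.trans_lt h3⟩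
  have hcd : ∀ t, HasDerivAt c 1 t := fun t =>
    ((hasDerivAt_id t).ofReal_comp.add_const (z.im * I)).congr_deriv (by simp)
  have hcont : ContinuousOn (U0 ∘ c) (Icc (h z.im) z.re) :=
    continuousOn_U0.comp (by fun_prop) hcEb
  obtain ⟨t, ht, he⟩ := exists_hasDerivAt_eq_slope (U0 ∘ c) (fun t => La (g (c t)) 1) h2 hcont
    fun t ht => (hasFDerivAt_U0 (hcE t ht)).comp_hasDerivAt t (hcd t)
  have e1 : c z.re = z := re_add_im z
  have e2 : U0 (c (h z.im)) = 0 := U0_bdry (by rwa [hc2]) (by rw [hc1, hc2])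
  have e3 : g (c (h z.im)) = 0 := g_bdry (by rwa [hc2]) (by rw [hc1, hc2])
  simp only [Function.comp_apply, e1, e2, sub_zero, La_apply, mul_one] at he
  have h4 := sub_pos.2 h2
  rw [eq_div_iff h4.ne'] at he
  have h5 := g_lip (hcEb t (Ioo_subset_Icc_self ht)) (hcEb _ (left_mem_Icc.2 h2.le))
  have e4 : c t - c (h z.im) = ((t - h z.im : ℝ) : ℂ) := by simp [c]
  rw [e3, sub_zero, e4, norm_real, Real.norm_of_nonneg (sub_pos.2 ht.1).le] at h5
  rw [← he, abs_mul, abs_of_pos h4]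
  have h6 := (abs_re_le_norm _).trans h5
  nlinarith [ht.2]

open Classical in
/-- The solution. -/
noncomputable def u (z : ℂ) : ℝ := if h z.im < z.re then U0 z else 0

/-- The retraction onto the closed domain. -/
noncomputable def P (z : ℂ) : ℂ := (max z.re (h z.im) : ℝ) + z.im * I

/-- The box. -/
def Q : Set ℂ := {z | z.im ∈ Ioo (-2 : ℝ) 2 ∧ z.re < 4}

theorem isOpen_Q : IsOpen Q :=
  (isOpen_Ioo.preimage continuous_im).inter (isOpen_lt continuous_re continuous_const)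

theorem P_re (z : ℂ) : (P z).re = max z.re (h z.im) := by simp [P]

theorem P_im (z : ℂ) : (P z).im = z.im := by simp [P]

theorem P_mem {z : ℂ} (hz : z ∈ Q) : P z ∈ Eb :=
  ⟨by rw [P_im]; exact hz.1, by rw [P_re, P_im]; exact le_max_right _ _,
    by rw [P_re]; exact max_lt hz.2 (h_lt _)⟩

theorem P_lip (a b : ℂ) : ‖P a - P b‖ ≤ 3 * ‖a - b‖ := by
  refine (norm_le_abs_re_add_abs_im _).trans ?_
  rw [sub_re, sub_im, P_re, P_re, P_im, P_im]
  have h1 := abs_re_le_norm (a - b)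
  have h2 := abs_im_le_norm (a - b)
  rw [sub_re] at h1
  rw [sub_im] at h2
  have h3 := h_lip a.im b.im
  have h4 := (abs_max_sub_max_le_max a.re (h a.im) b.re (h b.im)).trans
    (max_le (c := 2 * ‖a - b‖) (by linarith [norm_nonneg (a - b)]) (by linarith))
  linarith

theorem u_eq_U0 {z : ℂ} (hz : h z.im < z.re) : u =ᶠ[𝓝 z] U0 := by
  filter_upwards [(isOpen_lt (continuous_h.comp continuous_im) continuous_re).mem_nhds hz]
    with x hx
  exact if_pos hx

theorem u_eq_zero {z : ℂ} (hz : z.re < h z.im) : u =ᶠ[𝓝 z] fun _ => 0 := by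
  filter_upwards [(isOpen_lt continuous_re (continuous_h.comp continuous_im)).mem_nhds hz]
    with x hx
  exact if_neg (not_lt.2 (le_of_lt hx))

theorem hasFDerivAt_u {z : ℂ} (hz : z ∈ Q) : HasFDerivAt u (La (g (P z))) z := by
  rcases lt_trichotomy (h z.im) z.re with h1 | h1 | h1
  · have e : P z = z := by rw [P, max_eq_left h1.le, re_add_im]
    rw [e]
    exact (hasFDerivAt_U0 ⟨hz.1, h1, hz.2⟩).congr_of_eventuallyEq (u_eq_U0 h1)
  · have e : g (P z) = 0 :=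
      g_bdry (by rw [P_im]; exact hz.1) (by rw [P_re, P_im, max_eq_right h1.ge])
    rw [e, map_zero, hasFDerivAt_iff_isLittleO]
    have h2 : (fun x : ℂ => u x - u z - (0 : ℂ →L[ℝ] ℝ) (x - z)) =O[𝓝 z]
        fun x : ℂ => ‖x - z‖ ^ 2 := by
      refine Asymptotics.IsBigO.of_bound 216 ?_
      filter_upwards [isOpen_Q.mem_nhds hz] with x hx
      have e1 : u z = 0 := if_neg (not_lt.2 h1.ge)
      rw [e1, zero_apply, sub_zero, sub_zero, Real.norm_eq_abs,
        Real.norm_of_nonneg (sq_nonneg _)]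
      by_cases h3 : h x.im < x.re
      · rw [u, if_pos h3]
        refine (U0_bound ⟨hx.1, h3, hx.2⟩).trans ?_
        have h4 := abs_le.1 (abs_re_le_norm (x - z))
        have h5 := abs_im_le_norm (x - z)
        rw [sub_re] at h4
        rw [sub_im] at h5
        have h6 := abs_le.1 (h_lip x.im z.im)
        have h7 : x.re - h x.im ≤ 3 * ‖x - z‖ := by linarith [h4.2, h6.1]
        have h8 := pow_le_pow_left₀ (sub_pos.2 h3).le h7 2
        linarith
      · rw [u, if_neg h3, abs_zero]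
        positivity
    exact h2.trans_isLittleO (Asymptotics.isLittleO_pow_sub_sub z one_lt_two)
  · have e : g (P z) = 0 :=
      g_bdry (by rw [P_im]; exact hz.1) (by rw [P_re, P_im, max_eq_right h1.le])
    rw [e, map_zero]
    exact (hasFDerivAt_const (0 : ℝ) z).congr_of_eventuallyEq (u_eq_zero h1)

theorem lip_fderiv_u : LipschitzOnWith 72 (fderiv ℝ u) Q := by
  refine LipschitzOnWith.of_dist_le_mul fun a ha b hb => ?_
  rw [(hasFDerivAt_u ha).fderiv, (hasFDerivAt_u hb).fderiv, dist_eq_norm, dist_eq_norm, ← map_sub]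
  refine (norm_La _).trans ((g_lip (P_mem ha) (P_mem hb)).trans ?_)
  have := P_lip a b
  push_cast
  linarith

theorem null_graph : MeasureTheory.volume {z : ℂ | z.re = h z.im} = 0 := by
  have h1 : MeasurableSet {q : ℝ × ℝ | q.1 = h q.2} :=
    (isClosed_eq continuous_fst (continuous_h.comp continuous_snd)).measurableSet
  have h2 := volume_preserving_equiv_real_prod.measure_preimage h1.nullMeasurableSet
  have e : {z : ℂ | z.re = h z.im} = measurableEquivRealProd ⁻¹' {q : ℝ × ℝ | q.1 = h q.2} := by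
    ext z; simp
  rw [e, h2, MeasureTheory.Measure.volume_eq_prod, MeasureTheory.Measure.prod_apply_symm h1]
  simp

end Pool.Agent.H257Z.FB
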